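import Pool.Agent.H.MP_41e59c_pr.A

/-! The Gaussian half-factor is not a Polya frequency function of infinite order. -/

open Real

namespace Pool.Agent.Results.MP_41e59c_pr.NotPF

/-- the half-factor of the standard normal density -/
noncomputable def g (z : ℝ) : ℝ :=
  (2 / π) ^ (1 / 4 : ℝ) * exp (π ^ 2 / 12 + z - ∫ t in (0 : ℝ)..exp z, log (1 + t) / t)

theorem result : ∃ x y : Fin 12 → ℝ, StrictMono x ∧ StrictMono y ∧
    (Matrix.of fun i j => g (x i - y j)).det < 0 :=
  H.MP_41e59c_pr.main

end Pool.Agent.Results.MP_41e59c_pr.NotPF
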